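import Pool.Agent.K.MP_181257_gt.C3
import Pool.Agent.K.MP_181257_gt.C0

set_option autoImplicit false

open scoped Pointwise

namespace Pool.Agent.Results.MP_181257_gt.BallRigidity

open Pool.Agent.P.MP_181257_gt

theorem result (n i : ℕ) (hi : 1 ≤ i) (hn : 2 * i < n) (K : Set (EuclideanSpace ℝ (Fin n)))
    (hK : IsCompact K) (hc : Convex ℝ K) (hint : (interior K).Nonempty) :
    (∃ (x : EuclideanSpace ℝ (Fin n)) (lam : ℝ),
        0 < lam ∧ K = x +ᵥ lam • projBodyS i (projBodyS i K)) ↔
      ∃ (x : EuclideanSpace ℝ (Fin n)) (r : ℝ), K = Metric.closedBall x r := by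
  rw [fixed_iff (by simp; omega) hK hc (hint.mono interior_subset)]
  exact classification_half hi (by simpa using hn) hK hint

end Pool.Agent.Results.MP_181257_gt.BallRigidity
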