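import Pool.Agent.K.MP_181257_gt.C4

set_option autoImplicit false

namespace Pool.Agent.Results.MP_181257_gt.DirectSums

open Pool.Agent.P.MP_181257_gt

theorem result (n : ℕ) (hn : 2 ≤ n) (K : Set (EuclideanSpace ℝ (Fin n))) (hK : IsCompact K)
    (hc : Convex ℝ K) (hint : (interior K).Nonempty) : SelfProj K ↔ SumOfPieces K :=
  structure_iff (by simp; omega) hK hc hint

end Pool.Agent.Results.MP_181257_gt.DirectSums
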