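import Pool.Agent.K.MP_181257_gt.C6
import Pool.Agent.K.MP_181257_gt.C0

set_option autoImplicit false

open scoped Pointwise

namespace Pool.Agent.Results.MP_181257_gt.PowerRange

open Pool.Agent.P.MP_181257_gt

theorem result : ∃ n₀ : ℕ, ∀ n : ℕ, n₀ ≤ n → ∀ i : ℕ, 1 ≤ i →
    (i : ℝ) ≤ n - (n : ℝ) ^ (249 / 250 : ℝ) → ∀ K : Set (EuclideanSpace ℝ (Fin n)),
      IsCompact K → Convex ℝ K → (interior K).Nonempty →
      ((∃ (x : EuclideanSpace ℝ (Fin n)) (lam : ℝ),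
          0 < lam ∧ K = x +ᵥ lam • projBodyS i (projBodyS i K)) ↔
        ∃ (x : EuclideanSpace ℝ (Fin n)) (r : ℝ), K = Metric.closedBall x r) :=
  power_range

end Pool.Agent.Results.MP_181257_gt.PowerRange
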